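import Mathlib

set_option autoImplicit false

namespace Pool.Agent.H.MP_c64be7_an

open Filter Topology Set Real Finset

lemma wirt {θ : ℝ} {m : ℕ} (hm : (m + 2) * θ = π) (x : ℕ → ℝ) (hx : x (m + 2) = -x 0) :
    ∑ i ∈ range (m + 2), x i * x (i + 1) ≤ cos θ * ∑ i ∈ range (m + 2), x i ^ 2 := by
  have t0 : 0 < θ := (mul_pos_iff_of_pos_left (by positivity)).1 (hm ▸ pi_pos)
  have sp : ∀ n : ℕ, n ≤ m → 0 < sin ((n + 1 : ℕ) * θ) := fun n hn =>
    sin_pos_of_pos_of_lt_pi (by positivity) (by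
      have : (n : ℝ) ≤ m := by exact_mod_cast hn
      push_cast
      nlinarith)
  have k : ∀ n : ℕ, n ≤ m → 2 * ∑ i ∈ range (n + 1), x i * x (i + 1) ≤
      2 * cos θ * ∑ i ∈ range (n + 1), x i ^ 2 - cos θ * x 0 ^ 2 +
      (x (n + 1) ^ 2 * sin (n * θ) + 2 * sin θ * x 0 * x (n + 1) -
        x 0 ^ 2 * sin θ * cos ((n + 1 : ℕ) * θ)) / sin ((n + 1 : ℕ) * θ) := fun n hn => by
    induction n with
    | zero =>
      have := sp 0 hn
      simp only [zero_add, Nat.cast_one, one_mul, sum_range_one, Nat.cast_zero, zero_mul,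
        sin_zero] at this ⊢
      refine le_of_eq ?_
      field_simp
      ring
    | succ n ih =>
      have h1 := ih (by omega)
      have p := sp n (by omega)
      have q := sp (n + 1) hn
      have e1 : sin ((n + 1 + 1 : ℕ) * θ) = sin ((n + 1 : ℕ) * θ) * cos θ +
          cos ((n + 1 : ℕ) * θ) * sin θ := by
        rw [← sin_add]
        congr 1
        push_cast
        ring
      have e2 : cos ((n + 1 + 1 : ℕ) * θ) = cos ((n + 1 : ℕ) * θ) * cos θ -
          sin ((n + 1 : ℕ) * θ) * sin θ := by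
        rw [← cos_add]
        congr 1
        push_cast
        ring
      have e3 : sin (n * θ) = sin ((n + 1 : ℕ) * θ) * cos θ - cos ((n + 1 : ℕ) * θ) * sin θ := by
        rw [← sin_sub]
        congr 1
        push_cast
        ring
      have e4 := sin_sq_add_cos_sq ((n + 1 : ℕ) * θ)
      rw [sum_range_succ, sum_range_succ (fun i => x i ^ 2), e2]
      rw [e3] at h1
      generalize sin ((n + 1 + 1 : ℕ) * θ) = t at q e1 ⊢
      generalize sin ((n + 1 : ℕ) * θ) = s at p e1 e4 h1 ⊢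
      generalize cos ((n + 1 : ℕ) * θ) = c at e1 e4 h1 ⊢
      have : (x (n + 1) ^ 2 * (s * cos θ - c * sin θ) + 2 * sin θ * x 0 * x (n + 1) -
          x 0 ^ 2 * sin θ * c) / s + 2 * (x (n + 1) * x (n + 1 + 1)) +
          (t * x (n + 1) - s * x (n + 1 + 1) - sin θ * x 0) ^ 2 / (s * t) =
          2 * cos θ * x (n + 1) ^ 2 + (x (n + 1 + 1) ^ 2 * s + 2 * sin θ * x 0 * x (n + 1 + 1) -
          x 0 ^ 2 * sin θ * (c * cos θ - s * sin θ)) / t := by
        field_simp
        rw [e1]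
        linear_combination (-(x 0 ^ 2 * sin θ ^ 2)) * e4
      have p2 : 0 ≤ (t * x (n + 1) - s * x (n + 1 + 1) - sin θ * x 0) ^ 2 / (s * t) := by positivity
      linarith
  have h := k m le_rfl
  have p := sp 0 (by omega)
  rw [show ((m + 1 : ℕ) : ℝ) * θ = π - θ by push_cast; linarith,
    show (m : ℝ) * θ = π - 2 * θ by linarith, sin_pi_sub, sin_pi_sub, cos_pi_sub, sin_two_mul] at h
  simp only [zero_add, Nat.cast_one, one_mul] at p
  rw [show (x (m + 1) ^ 2 * (2 * sin θ * cos θ) + 2 * sin θ * x 0 * x (m + 1) -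
    x 0 ^ 2 * sin θ * -cos θ) / sin θ = 2 * cos θ * x (m + 1) ^ 2 + 2 * x 0 * x (m + 1) +
      cos θ * x 0 ^ 2 by field_simp; ring] at h
  rw [sum_range_succ, sum_range_succ (fun i => x i ^ 2), hx]
  linarith

lemma tele (g : ℕ → ℝ) (n : ℕ) : ∑ i ∈ range n, g (i + 1) = ∑ i ∈ range n, g i + g n - g 0 := by
  rw [← sum_range_succ, sum_range_succ']
  ring

lemma per {g : ℕ → ℝ} {m : ℕ} (h : ∀ n, g (n + m) = g n) (j : ℕ) :
    ∑ i ∈ range m, g (i + j) = ∑ i ∈ range m, g i := by
  induction j with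
  | zero => rfl
  | succ j ih =>
    have := tele (fun i => g (i + j)) m
    simp only [Nat.add_right_comm _ 1 j, add_comm m j, h, zero_add] at this
    rw [← ih]
    exact this.trans (by ring)

structure Nl (f F : ℝ → ℝ) (β : ℝ) : Prop where
  d : ∀ t, HasDerivAt F (f t) t
  c : Continuous f
  m : StrictMono f
  o : ∀ t, f (-t) = -f t
  e : ∀ t, F (-t) = F t
  z : F 0 = 0
  b : ∀ t, |f t| ≤ β

def Sol (f : ℝ → ℝ) (k : ℕ) (z : ℕ → ℝ) : Prop := ∀ n, z (n + k + 1) = z (n + k) - f (z n)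

noncomputable def V (F : ℝ → ℝ) (k : ℕ) (z : ℕ → ℝ) : ℝ :=
  ∑ j ∈ range (k + 1), z j * z (j + k) - ∑ j ∈ range k, z j * z (j + k + 1) -
    ∑ j ∈ range (2 * k + 1), F (z j)

variable {f F : ℝ → ℝ} {β : ℝ} {k : ℕ} {z : ℕ → ℝ}

lemma Nl.f0 (h : Nl f F β) : f 0 = 0 := by
  have := h.o 0
  rw [neg_zero] at this
  linarith

lemma Nl.cF (h : Nl f F β) : Continuous F := continuous_iff_continuousAt.2 fun t => (h.d t).continuousAt

lemma Nl.D (h : Nl f F β) {a b : ℝ} (hab : b ≠ -a) : 0 < F b - F a + f a * (a + b) := by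
  rw [← h.e b]
  rcases lt_or_gt_of_ne hab with e | e
  · obtain ⟨c, hc, e2⟩ := exists_hasDerivAt_eq_slope F f (show a < -b by linarith)
      h.cF.continuousOn fun t _ => h.d t
    rw [eq_div_iff (by linarith)] at e2
    nlinarith [mul_pos (sub_pos.2 (h.m hc.1)) (show 0 < -b - a by linarith)]
  · obtain ⟨c, hc, e2⟩ := exists_hasDerivAt_eq_slope F f (show -b < a by linarith)
      h.cF.continuousOn fun t _ => h.d t
    rw [eq_div_iff (by linarith)] at e2
    nlinarith [mul_pos (sub_pos.2 (h.m hc.2)) (show 0 < a + b by linarith)]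

lemma Sol.sh (h : Sol f k z) (n : ℕ) : Sol f k fun j => z (j + n) := fun j => by
  have := h (j + n)
  beta_reduce
  rwa [show j + k + 1 + n = j + n + k + 1 by ring, show j + k + n = j + n + k by ring]

lemma Sol.step (h : Sol f k z) : V F k z - V F k (fun j => z (j + 1)) =
    F (z (2 * k + 1)) - F (z 0) + f (z 0) * (z 0 + z (2 * k + 1)) := by
  have h1 := tele (fun j => z j * z (j + k)) (k + 1)
  have h2 := tele (fun j => z j * z (j + k + 1)) k
  have h3 := tele (fun j => F (z j)) (2 * k + 1)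
  have h4 := h 0
  simp only [zero_add, Nat.add_right_comm _ 1 k, ← two_mul] at h1 h2 h4
  simp only [V, h1, h2, h3]
  linear_combination -(z 0 + z (2 * k + 1)) * h4

lemma Sol.anti (h : Sol f k z) (hf : Nl f F β) : Antitone fun n => V F k fun j => z (j + n) :=
  antitone_nat_of_succ_le fun n => by
    have := (h.sh n).step (F := F)
    simp only [add_assoc, add_comm 1 n] at this
    by_cases e : z (2 * k + (n + 1)) = -z (0 + n)
    · rw [e, hf.e] at this
      linarith
    · linarith [hf.D e]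

lemma V_tend {ι : Type} {l : Filter ι} {Z : ι → ℕ → ℝ} (hf : Nl f F β)
    (h : ∀ j, Tendsto (Z · j) l (𝓝 (z j))) : Tendsto (fun i => V F k (Z i)) l (𝓝 (V F k z)) :=
  ((tendsto_finsetSum _ fun _ _ => (h _).mul (h _)).sub
    (tendsto_finsetSum _ fun _ _ => (h _).mul (h _))).sub
    (tendsto_finsetSum _ fun _ _ => (hf.cF.tendsto _).comp (h _))

lemma lim {ι : Type} (U : Ultrafilter ι) {Z : ι → ℕ → ℝ} (hf : Nl f F β) (hZ : ∀ i, Sol f k (Z i))
    {R : ℝ} (hR : ∀ i, ∀ j ≤ k, |Z i j| ≤ R) :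
    ∃ w, Sol f k w ∧ ∀ j, Tendsto (Z · j) U (𝓝 (w j)) := by
  have b : ∀ i j, |Z i (j + k)| ≤ R + j * β := fun i j => by
    induction j with
    | zero => simpa using hR i k le_rfl
    | succ j ih =>
      rw [Nat.add_right_comm, hZ i j]
      push_cast
      linarith [abs_sub (Z i (j + k)) (f (Z i j)), hf.b (Z i j)]
  have : ∀ j, ∃ x, Tendsto (Z · j) U (𝓝 x) := fun j => by
    obtain ⟨S, hS⟩ : ∃ S, ∀ i, |Z i j| ≤ S := by
      rcases le_total j k with e | e
      · exact ⟨R, fun i => hR i j e⟩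
      · obtain ⟨j, rfl⟩ := Nat.exists_eq_add_of_le' e
        exact ⟨_, fun i => b i j⟩
    exact (isCompact_iff_ultrafilter_le_nhds'.1 (isCompact_Icc (a := -S) (b := S))
      (U.map (Z · j)) (Ultrafilter.mem_map.2 (univ_mem' fun i => abs_le.1 (hS i)))).imp fun _ h => h.2
  choose w hw using this
  exact ⟨w, fun n => tendsto_nhds_unique (hw _) (((hw _).sub ((hf.c.tendsto _).comp (hw _))).congr
    fun i => (hZ i n).symm), hw⟩

variable {θ : ℝ}

lemma zero (hf : Nl f F β) (hk : 1 ≤ k) (hθ : (2 * k + 1) * θ = π)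
    (hs : ∀ t, t ≠ 0 → f t ^ 2 < (2 - 2 * cos θ) * t ^ 2) (h : Sol f k z) {c : ℝ}
    (hV : ∀ n, V F k (fun j => z (j + n)) = c) : ∀ i ≤ k, z i = 0 := by
  have a : ∀ n, z (n + (2 * k + 1)) = -z n := fun n => by_contra fun e => by
    have := (h.sh n).step (F := F)
    have e1 : (fun j => z (j + 1 + n)) = fun j => z (j + (1 + n)) := funext fun j => by
      rw [add_assoc]
    rw [e1, hV, hV, zero_add, add_comm _ n] at this
    linarith [hf.D e]
  have s : ∀ n, z (n + (2 * k + 1)) ^ 2 = z n ^ 2 := fun n => by rw [a, neg_sq]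
  obtain ⟨m, hm⟩ : ∃ m, 2 * k + 1 = m + 2 := ⟨2 * k - 1, by omega⟩
  have w := wirt (m := m) (θ := θ) (by rw [← hθ]; congr 1; exact_mod_cast hm.symm)
    (fun i => z (i + k)) (by rw [← hm, add_comm _ k, a, zero_add])
  rw [← hm] at w
  have p1 := per (g := fun n => z n ^ 2) s k
  have p2 := per (g := fun n => z n ^ 2) s (k + 1)
  intro i hi
  by_contra e
  have := sum_lt_sum (s := range (2 * k + 1)) (f := fun i => f (z i) ^ 2)
    (g := fun i => (2 - 2 * cos θ) * z i ^ 2) (fun i _ => by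
      by_cases e : z i = 0
      · simp [e, hf.f0]
      · exact (hs _ e).le) ⟨i, mem_range.2 (by omega), hs _ e⟩
  rw [sum_congr rfl (g := fun i => z (i + k) ^ 2 + z (i + (k + 1)) ^ 2 -
    2 * (z (i + k) * z (i + 1 + k))) fun i _ => by
      rw [Nat.add_right_comm, ← add_assoc, h i]
      ring, sum_sub_distrib, sum_add_distrib, ← mul_sum, ← mul_sum, p1, p2] at this
  rw [p1] at w
  linarith

lemma bdd (hf : Nl f F β) (h : Sol f k z) : ∃ R, ∀ n, z n ≤ R := by
  have d : ∀ n j, z (n + k + j) ≤ z (n + k) + j * β := fun n j => by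
    induction j with
    | zero => simp
    | succ j ih =>
      have := h (n + j)
      rw [Nat.add_right_comm n j k] at this
      rw [← add_assoc, this]
      push_cast
      linarith [neg_abs_le (f (z (n + j))), hf.b (z (n + j))]
  obtain ⟨R, hR⟩ := ((finite_le_nat (2 * k)).image z).bddAbove
  refine ⟨max R ((k + 1) * β), fun n => ?_⟩
  induction n with
  | zero => exact le_max_of_le_left (hR ⟨0, by simp, rfl⟩)
  | succ n ih =>
    rcases le_or_gt (n + 1) (2 * k) with e | e
    · exact le_max_of_le_left (hR ⟨_, e, rfl⟩)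
    obtain ⟨n, rfl⟩ : ∃ m, n = m + k + k := ⟨n - 2 * k, by omega⟩
    rcases le_or_gt 0 (z (n + k)) with e | e
    · have := hf.m.monotone e
      rw [h]
      linarith [hf.f0]
    · have := d n (k + 1)
      push_cast at this
      exact le_max_of_le_right (by rw [add_assoc]; linarith)

lemma attr (hf : Nl f F β) (hk : 1 ≤ k) (hθ : (2 * k + 1) * θ = π)
    (hs : ∀ t, t ≠ 0 → f t ^ 2 < (2 - 2 * cos θ) * t ^ 2) (h : Sol f k z) :
    Tendsto z atTop (𝓝 0) := by
  obtain ⟨R, hR⟩ := bdd hf h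
  obtain ⟨S, hS⟩ := bdd hf (z := fun n => -z n) (k := k) fun n => by
    beta_reduce
    rw [h n, hf.o]
    ring
  refine (tendsto_iff_ultrafilter _ _ _).2 fun U hU => ?_
  obtain ⟨w, h1, h2⟩ := lim U hf (fun i => h.sh i) (R := max R S) fun i j _ =>
    abs_le.2 ⟨neg_le.1 (le_max_of_le_right (hS _)), le_max_of_le_left (hR _)⟩
  have t : ∀ n, Tendsto (fun i => V F k fun j => z (j + (i + n))) U
      (𝓝 (V F k fun j => w (j + n))) := fun n => by
    simpa only [add_assoc, add_comm n] using V_tend (k := k) hf fun j => h2 (j + n)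
  rcases tendsto_atTop_of_antitone (h.anti hf) with e | ⟨c, e⟩
  · exact (not_tendsto_atBot_of_tendsto_nhds (t 0) (e.mono_left hU)).elim
  · have := h2 0
    rw [zero hf hk hθ hs h1 (c := c) (fun n => tendsto_nhds_unique (t n)
      ((e.comp (tendsto_add_atTop_nat n)).mono_left hU)) 0 (by omega)] at this
    simpa using this

lemma V_nn (hf : Nl f F β) (h : Sol f k z) (h0 : Tendsto z atTop (𝓝 0)) : 0 ≤ V F k z := by
  have := V_tend (k := k) (z := 0) (Z := fun i j => z (j + i)) hf fun j =>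
    (h0.comp (tendsto_add_atTop_nat j)).congr fun i => congrArg z (add_comm _ _)
  rw [show V F k 0 = 0 by simp [V, hf.z]] at this
  exact le_of_tendsto' this fun n => h.anti hf n.zero_le

lemma stab (hf : Nl f F β) (hk : 1 ≤ k) (hθ : (2 * k + 1) * θ = π)
    (hs : ∀ t, t ≠ 0 → f t ^ 2 < (2 - 2 * cos θ) * t ^ 2) {ε : ℝ} (hε : 0 < ε) :
    ∃ δ > 0, ∀ z, Sol f k z → (∀ i ≤ k, |z i| < δ) → ∀ n, |z n| < ε := by
  classical
  by_contra hc
  push Not at hc
  choose Z h1 h2 h3 using fun i : ℕ => hc (min ε (1 / (i + 1))) (by positivity)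
  have hn : ∀ i, ∃ n, ε ≤ |Z i (k + n)| ∧ ∀ j ≤ k, |Z i (j + n)| ≤ ε + β := fun i => by
    have a := Nat.find_spec (h3 i)
    have b := fun m => Nat.find_min (h3 i) (m := m)
    generalize Nat.find (h3 i) = n at a b
    have c : k < n := by_contra fun e =>
      ((h2 i n (by omega)).trans_le (min_le_left _ _)).not_ge a
    obtain ⟨n, rfl⟩ := Nat.exists_eq_add_of_lt c
    have β0 := (abs_nonneg _).trans (hf.b 0)
    refine ⟨n + 1, a, fun j hj => ?_⟩
    rcases hj.eq_or_lt with rfl | e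
    · rw [← add_assoc, add_comm j, h1 i n]
      linarith [abs_sub (Z i (n + j)) (f (Z i n)), hf.b (Z i n), not_le.1 (b (n + j) (by omega))]
    · linarith [not_le.1 (b (j + (n + 1)) (by omega))]
  choose N n1 n2 using hn
  let U := Ultrafilter.of (atTop : Filter ℕ)
  obtain ⟨v, v1, v2⟩ := lim U hf h1 fun i j hj => ((h2 i j hj).trans_le (min_le_left _ _)).le
  have v3 : ∀ j, v j = 0 := fun j => by
    induction j using Nat.strong_induction_on with
    | _ j ih =>
      rcases le_or_gt j k with e | e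
      · refine tendsto_nhds_unique (v2 j) (squeeze_zero_norm (fun i => ((h2 i j e).trans_le
          (min_le_right _ _)).le) (tendsto_one_div_add_atTop_nhds_zero_nat.mono_left
            (Ultrafilter.of_le _)))
      · obtain ⟨n, rfl⟩ := Nat.exists_eq_add_of_lt e
        rw [add_comm k, v1, ih _ (by omega), ih _ (by omega), hf.f0, sub_zero]
  have v4 := V_tend (k := k) hf v2
  rw [show V F k v = 0 by simp [V, v3, hf.z]] at v4
  obtain ⟨w, w1, w2⟩ := lim U hf (fun i => (h1 i).sh (N i)) n2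
  have := zero hf hk hθ hs w1 (c := 0) (fun n => tendsto_nhds_unique
    (V_tend hf fun j => w2 (j + n)) (squeeze_zero (fun i => ?_) (fun i => ?_) v4)) k le_rfl
  · have := ge_of_tendsto' (w2 k).abs n1
    simp_all only [abs_zero]
    linarith
  · exact V_nn hf (((h1 i).sh _).sh n) (attr hf hk hθ hs (((h1 i).sh _).sh n))
  · simpa only [add_assoc, add_zero] using (h1 i).anti hf (n + N i).zero_le

end Pool.Agent.H.MP_c64be7_an
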