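import Pool.Agent.H.MP_c64be7_an.A

set_option autoImplicit false

namespace Pool.Agent.H.MP_c64be7_an

open Filter Topology Set Real Finset

variable {f F : ℝ → ℝ} {β θ : ℝ} {k : ℕ} {z : ℕ → ℝ}

noncomputable def sol (f : ℝ → ℝ) (k : ℕ) (a : ℕ → ℝ) (n : ℕ) : ℝ :=
  if n ≤ k then a n else sol f k a (n - 1) - f (sol f k a (n - 1 - k))
termination_by n
decreasing_by all_goals omega

lemma ex (f : ℝ → ℝ) (k : ℕ) (a : ℕ → ℝ) : ∃ z, Sol f k z ∧ ∀ i ≤ k, z i = a i :=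
  ⟨sol f k a, fun n => by
    rw [sol, if_neg (by omega), Nat.add_sub_cancel, Nat.add_sub_cancel],
    fun i hi => by rw [sol, if_pos hi]⟩

lemma inst (hf : Nl f F β) (hk : 1 ≤ k) (hθ : (2 * k + 1) * θ = π) {α s : ℝ}
    (hα : 2 * cos (k * θ) < α) (s0 : 0 < s) (hF : ∀ x, |x| ≤ s → α * x ^ 2 / 2 ≤ F x) :
    ∃ z, Sol f k z ∧ V F k z < 0 := by
  have t0 : 0 < θ := (mul_pos_iff_of_pos_left (by positivity)).1 (hθ ▸ pi_pos)
  have k1 : (1 : ℝ) ≤ k := by exact_mod_cast hk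
  have c0 : 0 < cos (k * θ) := cos_pos_of_mem_Ioo ⟨by nlinarith [pi_pos], by nlinarith⟩
  have f0 : 0 < f s := hf.f0 ▸ hf.m s0
  obtain ⟨t, t1, t2, t3⟩ : ∃ t, 0 < t ∧ t ≤ s ∧ t ≤ f s / 2 :=
    ⟨_, lt_min s0 (half_pos f0), min_le_left _ _, min_le_right _ _⟩
  have : ∀ j : ℕ, ∃ a ∈ Set.Icc (-s) s, f a = t * sin (j * θ) - t * sin ((j + 1 : ℕ) * θ) := fun j =>
    intermediate_value_Icc (by linarith) hf.c.continuousOn (by
      rw [hf.o]
      constructor <;> nlinarith [neg_one_le_sin (j * θ), sin_le_one (j * θ),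
        neg_one_le_sin ((j + 1 : ℕ) * θ), sin_le_one ((j + 1 : ℕ) * θ)])
  choose a a1 a2 using this
  obtain ⟨z, h1, h2⟩ := ex f k fun j => if j < k then a j else 0
  have h3 : ∀ j < k, z j = a j := fun j hj => (h2 j hj.le).trans (if_pos hj)
  have h4 : ∀ i ≤ k, z (i + k) = t * sin (i * θ) := fun i hi => by
    induction i with
    | zero => simpa using h2 k le_rfl
    | succ i ih => rw [Nat.add_right_comm, h1, ih (by omega), h3 i hi, a2]; ring
  refine ⟨z, h1, ?_⟩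
  have α0 : 0 < α := by linarith
  have e1 : ∑ j ∈ range k, (z j * z (j + k) - z j * z (j + k + 1) - F (z j)) ≤
      ∑ j ∈ range k, (2 * cos (k * θ)) ^ 2 / (2 * α) * (t * sin ((k - 1 - j + 1 : ℕ) * θ)) ^ 2 :=
    sum_le_sum fun j hj => by
      have hj := mem_range.1 hj
      have e : f (z j) = -(2 * cos (k * θ) * (t * sin ((k - 1 - j + 1 : ℕ) * θ))) := by
        have e1 := sin_add ((k - j) * θ) (k * θ)
        have e2 := sin_sub ((k - j) * θ) (k * θ)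
        rw [show (k - j) * θ + k * θ = π - (j + 1 : ℕ) * θ by push_cast; linarith, sin_pi_sub] at e1
        rw [show (k - j) * θ - k * θ = -(j * θ) by ring, sin_neg] at e2
        rw [h3 j hj, a2, show k - 1 - j + 1 = k - j by omega, Nat.cast_sub hj.le]
        linear_combination -t * e1 - t * e2
      have := hF (z j) (h3 j hj ▸ abs_le.2 (a1 j))
      rw [h1 j, div_mul_eq_mul_div, ← mul_pow, ← neg_sq, ← e, le_div_iff₀ (by positivity)]
      nlinarith [sq_nonneg (f (z j) - α * z j)]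
  have e2 : ∑ i ∈ range (k + 1), α / 2 * (t * sin (i * θ)) ^ 2 ≤ ∑ i ∈ range (k + 1), F (z (k + i)) :=
    sum_le_sum fun i hi => by
      rw [add_comm k, h4 i (Nat.lt_succ_iff.1 (mem_range.1 hi))]
      refine le_trans (le_of_eq (by ring)) (hF _ ?_)
      rw [abs_mul, abs_of_pos t1]
      exact (mul_le_of_le_one_right t1.le (abs_sin_le_one _)).trans t2
  have e3 : 0 < ∑ i ∈ range k, (t * sin ((i + 1 : ℕ) * θ)) ^ 2 :=
    sum_pos' (fun _ _ => sq_nonneg _) ⟨0, mem_range.2 hk, by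
      have := sin_pos_of_pos_of_lt_pi t0 (by nlinarith)
      simp only [zero_add, Nat.cast_one, one_mul]
      positivity⟩
  have e4 : (2 * cos (k * θ)) ^ 2 / (2 * α) < α / 2 := by
    rw [div_lt_iff₀ (by positivity)]
    nlinarith
  rw [← mul_sum, sum_range_reflect (fun i => (t * sin ((i + 1 : ℕ) * θ)) ^ 2), sum_sub_distrib,
    sum_sub_distrib] at e1
  rw [← mul_sum, sum_range_succ'] at e2
  have e5 := h4 0 k.zero_le
  simp only [Nat.cast_zero, zero_mul, sin_zero, mul_zero, zero_add] at e2 e5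
  rw [V, sum_range_succ, show 2 * k + 1 = k + (k + 1) by ring, sum_range_add, e5]
  nlinarith [mul_lt_mul_of_pos_right e4 e3]

noncomputable def ff (β t : ℝ) : ℝ := β * (2 * sigmoid t - 1)

noncomputable def FF (β t : ℝ) : ℝ := β * (log (1 + exp t) + log (1 + exp (-t)) - 2 * log 2)

lemma ff_d (t : ℝ) : HasDerivAt (ff β) (β * (2 * (sigmoid t * (1 - sigmoid t)))) t :=
  (((hasDerivAt_sigmoid t).const_mul 2).sub_const 1).const_mul β

lemma nl (hβ : 0 < β) : Nl (ff β) (FF β) β where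
  d t := by
    have p := exp_pos t
    refine ((((((hasDerivAt_exp t).const_add 1).log (by positivity)).add
      (((hasDerivAt_neg t).exp.const_add 1).log (by positivity))).sub_const _).const_mul β).congr_deriv ?_
    rw [ff, sigmoid, exp_neg]
    field_simp
    ring
  c := continuous_iff_continuousAt.2 fun t => (ff_d t).continuousAt
  m a b h := by
    unfold ff
    nlinarith [sigmoid_lt h]
  o t := by
    rw [ff, ff, sigmoid_neg]
    ring
  e t := by rw [FF, FF, neg_neg, add_comm (log _)]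
  z := by
    rw [FF, neg_zero, exp_zero, one_add_one_eq_two]
    ring
  b t := by
    rw [ff, abs_mul, abs_of_pos hβ]
    exact mul_le_of_le_one_right hβ.le (abs_le.2 ⟨by linarith [sigmoid_pos t],
      by linarith [sigmoid_lt_one t]⟩)

lemma mvt (hβ : 0 < β) {t : ℝ} (ht : 0 < t) :
    ∃ c ∈ Set.Ioo 0 t, ff β t = β * (2 * (sigmoid c * (1 - sigmoid c))) * t := by
  obtain ⟨c, h1, h2⟩ := exists_hasDerivAt_eq_slope (ff β) _ ht (nl hβ).c.continuousOn
    fun t _ => ff_d t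
  rw [(nl hβ).f0, sub_zero, sub_zero, eq_div_iff ht.ne'] at h2
  exact ⟨c, h1, h2.symm⟩

lemma sect (hβ : 0 < β) {t : ℝ} (ht : t ≠ 0) : ff β t ^ 2 < (β / 2) ^ 2 * t ^ 2 := by
  wlog h : 0 < t generalizing t
  · simpa [(nl hβ).o] using this (neg_ne_zero.2 ht) (neg_pos.2 (lt_of_le_of_ne (not_lt.1 h) ht))
  obtain ⟨c, h1, h2⟩ := mvt hβ h
  have h3 := sigmoid_lt h1.1
  rw [sigmoid_zero] at h3
  rw [← mul_pow]
  refine pow_lt_pow_left₀ ?_ ((nl hβ).f0 ▸ ((nl hβ).m h).le) two_ne_zero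
  rw [h2]
  refine mul_lt_mul_of_pos_right ?_ h
  nlinarith [mul_pos hβ (pow_pos (sub_pos.2 h3) 2)]

lemma low (hβ : 0 < β) {α : ℝ} (hα : α < β / 2) :
    ∃ s > 0, ∀ x, |x| ≤ s → α * x ^ 2 / 2 ≤ FF β x := by
  have c : ContinuousAt (fun c => β * (2 * (sigmoid c * (1 - sigmoid c)))) 0 := by
    have := continuous_sigmoid
    fun_prop
  obtain ⟨s, s0, hs⟩ := Metric.eventually_nhds_iff.1 (c.eventually (lt_mem_nhds
    (show α < _ by beta_reduce; rw [sigmoid_zero]; linarith)))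
  have k : ∀ x, 0 < x → x ≤ s → α * x ^ 2 / 2 ≤ FF β x := fun x x0 hx => by
    obtain ⟨c, h1, h2⟩ := exists_hasDerivAt_eq_slope (fun x => FF β x - α * x ^ 2 / 2)
      (fun x => ff β x - α * x) x0 ((nl hβ).cF.sub (by fun_prop)).continuousOn fun t _ =>
      (((nl hβ).d t).sub (((hasDerivAt_pow 2 t).const_mul α).div_const 2)).congr_deriv (by
        simp; ring)
    obtain ⟨d, h3, h4⟩ := mvt hβ h1.1
    have := hs (y := d) (by rw [dist_0_eq_abs, abs_of_pos h3.1]; linarith [h3.2, h1.2])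
    rw [(nl hβ).z, eq_div_iff (by linarith), h4] at h2
    nlinarith [mul_pos (mul_pos (sub_pos.2 this) h1.1) x0]
  refine ⟨s, s0, fun x hx => ?_⟩
  rcases lt_trichotomy x 0 with h | rfl | h
  · simpa [(nl hβ).e] using k (-x) (neg_pos.2 h) ((neg_le_abs x).trans hx)
  · simp [(nl hβ).z]
  · exact k x h ((le_abs_self x).trans hx)

def Sy (β : ℝ) (k : ℕ) (y : ℕ → ℝ) : Prop := ∀ n : ℕ, y (n + k + 1) =
  y (n + k) * exp (β * (1 - 2 * y n)) / (1 - y (n + k) + y (n + k) * exp (β * (1 - 2 * y n)))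

lemma sg_step (a b : ℝ) : sigmoid (a - ff β b) = sigmoid a * exp (β * (1 - 2 * sigmoid b)) /
    (1 - sigmoid a + sigmoid a * exp (β * (1 - 2 * sigmoid b))) := by
  rw [show β * (1 - 2 * sigmoid b) = -ff β b by rw [ff]; ring, ← sigmoid_neg,
    ← sigmoid_mul_rexp_neg, sigmoid_def (a - _), neg_sub, exp_sub, exp_neg, exp_neg]
  have := sigmoid_pos a
  have := exp_pos a
  have := exp_pos (ff β b)
  field_simp
  ring

lemma toz {y : ℕ → ℝ} (h0 : ∀ i, i ≤ k → 0 < y i ∧ y i < 1) (h : Sy β k y) :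
    ∃ z, Sol (ff β) k z ∧ ∀ n, y n = sigmoid (z n) := by
  have : ∀ i, ∃ a, i ≤ k → sigmoid a = y i := fun i => by
    by_cases hi : i ≤ k
    · exact (show y i ∈ Set.range sigmoid from range_sigmoid ▸ h0 i hi).imp fun _ e _ => e
    · exact ⟨0, fun e => (hi e).elim⟩
  choose a ha using this
  obtain ⟨z, h1, h2⟩ := ex (ff β) k a
  refine ⟨z, h1, fun n => ?_⟩
  induction n using Nat.strong_induction_on with
  | _ j ih =>
    rcases le_or_gt j k with e | e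
    · rw [h2 j e, ha j e]
    · obtain ⟨n, rfl⟩ := Nat.exists_eq_add_of_lt e
      rw [add_comm k, h, h1, sg_step, ih _ (by omega), ih n (by omega)]

lemma inv_sg {ε : ℝ} (hε : 0 < ε) : ∃ δ > 0, ∀ t, |sigmoid t - 1 / 2| < δ → |t| < ε := by
  have h := sigmoid_lt hε
  rw [sigmoid_zero] at h
  refine ⟨sigmoid ε - 2⁻¹, sub_pos.2 h, fun t ht => ?_⟩
  rw [abs_lt] at ht ⊢
  exact ⟨sigmoid_lt_iff.1 (by rw [sigmoid_neg]; linarith [ht.1]),
    sigmoid_lt_iff.1 (by linarith [ht.2])⟩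

theorem main (hk : 1 ≤ k) (hβ : 0 < β) :
    ((∀ ε : ℝ, 0 < ε → ∃ δ : ℝ, 0 < δ ∧ ∀ y : ℕ → ℝ, (∀ i, i ≤ k → 0 < y i ∧ y i < 1) → Sy β k y →
      (∀ i, i ≤ k → |y i - 1 / 2| < δ) → ∀ n : ℕ, |y n - 1 / 2| < ε) ∧
    ∀ y : ℕ → ℝ, (∀ i, i ≤ k → 0 < y i ∧ y i < 1) → Sy β k y → Tendsto y atTop (𝓝 (1 / 2))) ↔
    β ≤ 4 * cos (k * π / (2 * k + 1)) := by
  have hθ : (2 * k + 1) * (π / (2 * k + 1)) = π := mul_div_cancel₀ _ (by positivity)
  rw [mul_div_assoc]
  generalize π / (2 * k + 1) = θ at hθ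
  have s0 : Tendsto sigmoid (𝓝 0) (𝓝 (1 / 2)) := continuous_sigmoid.tendsto' _ _ (by simp)
  refine ⟨fun h => le_of_not_gt fun hc => ?_, fun h => ?_⟩
  · obtain ⟨α, a1, a2⟩ := exists_between (show 2 * cos (k * θ) < β / 2 by linarith)
    obtain ⟨s, s1, s2⟩ := low hβ a2
    obtain ⟨z, h1, h2⟩ := inst (nl hβ) hk hθ a1 s1 s2
    have := h.2 (fun n => sigmoid (z n)) (fun _ _ => ⟨sigmoid_pos _, sigmoid_lt_one _⟩) fun n => by
      beta_reduce
      rw [h1, sg_step]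
    refine h2.not_ge (V_nn (nl hβ) h1 (Metric.tendsto_nhds.2 fun ε hε => ?_))
    obtain ⟨δ, d0, hd⟩ := inv_sg hε
    exact (Metric.tendsto_nhds.1 this δ d0).mono fun n hn => (dist_0_eq_abs _).trans_lt (hd _ hn)
  · have hs : ∀ t, t ≠ 0 → ff β t ^ 2 < (2 - 2 * cos θ) * t ^ 2 := fun t ht => by
      refine (sect hβ ht).trans_le (mul_le_mul_of_nonneg_right ?_ (sq_nonneg _))
      have := cos_two_mul (k * θ)
      rw [show 2 * (k * θ) = π - θ by linarith, cos_pi_sub] at this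
      nlinarith
    refine ⟨fun ε hε => ?_, fun y h0 hy => ?_⟩
    · obtain ⟨η, e0, he⟩ := Metric.tendsto_nhds_nhds.1 s0 ε hε
      obtain ⟨ρ, r0, hr⟩ := stab (nl hβ) hk hθ hs e0
      obtain ⟨δ, d0, hd⟩ := inv_sg r0
      refine ⟨δ, d0, fun y h0 hy h1 n => ?_⟩
      obtain ⟨z, h2, h3⟩ := toz h0 hy
      rw [h3]
      exact he ((dist_0_eq_abs _).trans_lt (hr z h2 (fun i hi => hd _ (h3 i ▸ h1 i hi)) n))
    · obtain ⟨z, h2, h3⟩ := toz h0 hy
      exact (s0.comp (attr (nl hβ) hk hθ hs h2)).congr fun n => (h3 n).symm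

end Pool.Agent.H.MP_c64be7_an
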